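import Pool.Agent.W670.ML.Defs2

/-! ML2-PS: the compositum of `r` of the fields. -/

set_option autoImplicit false

namespace Pool.Agent.W342.ML2.PS

open NumberField
open Pool.Agent.W670.ML

theorem fr_iSup (K Ω : Type) [Field K] [Field Ω] [Algebra K Ω] (n : ℕ) :
    ∀ (r : ℕ) (L : Fin r → IntermediateField K Ω), (∀ i, Module.finrank K (L i) ≤ n) →
      Module.finrank K ↥(⨆ i, L i) ≤ n ^ r := by
  intro r
  induction r with
  | zero =>
    intro L _
    have h : (⨆ i, L i) = ⊥ := by simp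
    rw [h]
    simp
  | succ r ih =>
    intro L hL
    have h : (⨆ i, L i) = L 0 ⊔ ⨆ i : Fin r, L i.succ := by
      apply le_antisymm
      · apply iSup_le
        intro i
        refine Fin.cases le_sup_left (fun j => ?_) i
        exact le_trans (le_iSup (fun i : Fin r => L i.succ) j) le_sup_right
      · apply sup_le (le_iSup L 0)
        apply iSup_le
        intro j
        exact le_iSup L j.succ
    rw [h]
    calc Module.finrank K ↥(L 0 ⊔ ⨆ i : Fin r, L i.succ)
        ≤ Module.finrank K (L 0) * Module.finrank K ↥(⨆ i : Fin r, L i.succ) :=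
          IntermediateField.finrank_sup_le _ _
      _ ≤ n * n ^ r := Nat.mul_le_mul (hL 0) (ih _ (fun i => hL i.succ))
      _ = n ^ (r + 1) := by ring

theorem ps (h1 : S_IC) (h2 : S_IM) (h3 : S_EXK) (h4 : S_DM) (h5 : S_DI) (h6 : S_MI) : S_PS := by
  intro K _ _ n m r G X L hn hr hT hm hX hL
  obtain ⟨-, hMI⟩ := h6 n G hn hT
  obtain ⟨hm1, hmn, hmi⟩ := hMI m hm
  have hac : IsAlgClosure ℚ (AlgebraicClosure K) :=
    IsAlgClosure.ofAlgebraic ℚ K (AlgebraicClosure K)
  have hfr : ∀ i, Module.finrank K (L i) = n := fun i => (hL i).1.1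
  have hfd : ∀ i, FiniteDimensional K (L i) := fun i =>
    Module.finite_of_finrank_pos (by rw [hfr i]; omega)
  have hfdM : FiniteDimensional K ↥(⨆ i, L i) := inferInstance
  obtain ⟨hNF, hdisc⟩ := h4 K (AlgebraicClosure K) n r X L (by omega) hX
    (fun i => ⟨hfr i, (hL i).2⟩)
  have hkpos : 0 < Module.finrank K ↥(⨆ i, L i) := Module.finrank_pos
  have hdvd : n ∣ Module.finrank K ↥(⨆ i, L i) := by
    have hle : L ⟨0, hr⟩ ≤ ⨆ i, L i := le_iSup L _
    have := IntermediateField.finrank_dvd_of_le_right hle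
    rwa [hfr] at this
  obtain ⟨q, hq⟩ := hdvd
  rw [mul_comm] at hq
  have hq1 : 1 ≤ q := by
    rcases Nat.eq_zero_or_pos q with h0 | h0
    · rw [hq, h0] at hkpos
      simp at hkpos
    · exact h0
  refine ⟨q, hq1, ?_, hq, ⟨hNF, ?_⟩, ?_⟩
  · rw [← hq]
    exact fr_iSup K (AlgebraicClosure K) n r L (fun i => (hfr i).le)
  · have hrd : (relDisc K ↥(⨆ i, L i) : ℝ) ≤ X ^ (r * q) := by
      have e : X ^ (r * Module.finrank K ↥(⨆ i, L i)) = (X ^ (r * q)) ^ n := by
        rw [← pow_mul, hq, mul_assoc]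
      rw [e] at hdisc
      exact (pow_le_pow_iff_left₀ (by positivity) (by positivity) (by omega)).1 hdisc
    rw [h5.1 K ↥(⨆ i, L i), hq]
    push_cast
    rw [mul_comm]
    exact mul_le_mul_of_nonneg_left hrd (by positivity)
  · intro N H hH
    obtain ⟨H', -, hH'⟩ := h3 K (AlgebraicClosure K) (Module.finrank K ↥(⨆ i, L i)) (⨆ i, L i)
      hkpos rfl
    refine h1 K (AlgebraicClosure K) (Module.finrank K ↥(⨆ i, L i)) N (q * m) H' H (⨆ i, L i)
      hH' hH ?_ ?_
    · rw [hq]
      exact Nat.mul_le_mul_left q hmn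
    · intro g hg hg1
      have := h2 K (AlgebraicClosure K) n (Module.finrank K ↥(⨆ i, L i)) m r G H' L (by omega)
        (fun i => (hL i).1) hmi hH' g hg hg1
      have h7 : n * (q * m) ≤ n * ind g := by
        calc n * (q * m) = q * n * m := by ring
          _ = Module.finrank K ↥(⨆ i, L i) * m := congrArg (fun t => t * m) hq.symm
          _ ≤ n * ind g := this
      exact Nat.le_of_mul_le_mul_left h7 (by omega)

end Pool.Agent.W342.ML2.PS
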